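import Pool.Agent.W527.PC.Defs
import Pool.Agent.W527.CL.Stm

/-!
# The parts of the proof (p-adic case)
-/

namespace Pool.Agent.W527.PC

open NumberField Pool.Agent.W527.CL

/-- Existence of the data (`K` the splitting field of `X ^ 5 - 4 X + 2`, `p = 769`). -/
def S_FIELDP : Prop := ∃ (K : Type) (_ : Field K) (_ : NumberField K) (D : FieldData K) (p : ℕ)
  (_ : Fact p.Prime), Nonempty (PData D p)

/-- Multiplicative independence of the five numbers. -/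
def S_INDEP5 : Prop := ∀ (K : Type) [Field K] [NumberField K] (D : FieldData K) (m : Fin 5 → ℤ),
  ∏ j, (D.β 0 + (n5 j : ℂ)) ^ m j = ∏ j, (D.β 1 + (n5 j : ℂ)) ^ m j → m = 0

/-- Multiplicative independence of the twenty elements `g i j`. -/
def S_GINJ : Prop := ∀ (K : Type) [Field K] [NumberField K] (D : FieldData K)
  (σ : Equiv.Perm (Fin 5)) (X : Matrix (Fin 4) (Fin 5) ℤ), G D σ X = 1 → X = 0

/-- The linear algebra. -/
def S_LIN : Prop := ∀ (Φ : Type) [Fintype Φ] (π : Φ → Equiv.Perm (Fin 5)), Function.Surjective π →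
  ∀ (S : AddSubgroup (Matrix (Fin 4) (Fin 5) ℤ)) (N : AddSubgroup (Φ → ℤ)), S ≤ USym →
  (∀ χ ∈ N, ∀ X ∈ S, ∀ k j : Fin 5, ∑ φ, χ φ * hat X ((π φ).symm k) j = 0) →
  Module.finrank ℤ S + Module.finrank ℤ N ≤ Fintype.card Φ

/-- The condition on the algebraic subgroups. -/
def S_RANK : Prop := ∀ (K : Type) [Field K] [NumberField K] (D : FieldData K) (p : ℕ)
  [Fact p.Prime] (_ : PData D p) (σ : Equiv.Perm (Fin 5)) (N : AddSubgroup ((K →+* ℚ_[p]) → ℤ)),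
  rk K (LL D σ ⊓ (pointsp K p N).comap (embp K p)) + Module.finrank ℤ N ≤ Nat.card (K →+* ℚ_[p])

/-- Relations in finite abelian groups. -/
def S_TOR : Prop := ∀ (A : Type) [CommGroup A] [Finite A] (p : ℕ) [Fact p.Prime],
  Nat.card {a : A // a ^ p = 1} < p ^ 5 → ∀ u : Fin 5 → A, ∃ s : Fin 5 → ℤ,
    (∃ j, ¬ (p : ℤ) ∣ s j) ∧ ∏ j, u j ^ s j = 1

/-- Relations modulo `p ^ n`. -/
def S_PIG : Prop := ∀ (p : ℕ) [Fact p.Prime], p ≠ 2 → ∀ (u : Fin 4 → Fin 5 → ℤ_[p]ˣ) (n : ℕ),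
  ∃ s : Fin 5 → ℤ, (∃ j, ¬ (p : ℤ) ∣ s j) ∧
    ∀ k, ‖((∏ j, u k j ^ s j : ℤ_[p]ˣ) : ℤ_[p]) - 1‖ ≤ (p : ℝ) ^ (-(n : ℤ))

/-- The choice of the order of the five integers. -/
def S_CHOICE : Prop := ∀ (K : Type) [Field K] [NumberField K] (D : FieldData K) (p : ℕ)
  [Fact p.Prime] (_ : PData D p), ∃ (σ : Equiv.Perm (Fin 5)) (s0 : Fin 5 → ℤ), ¬ (p : ℤ) ∣ s0 0 ∧
  ∀ n : ℕ, ∃ s : Fin 5 → ℤ, (∀ j, (p : ℤ) ∣ s j - s0 j) ∧
    ∀ φ : K →+* ℚ_[p], ‖φ ((G D σ (tens s) : Kˣ) : K) - 1‖ ≤ (p : ℝ) ^ (-(n : ℤ))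

/-- An element of `L` in the closure of the group of `p`-th powers. -/
def S_MEMCL : Prop := ∀ (K : Type) [Field K] [NumberField K] (D : FieldData K) (p : ℕ)
  [Fact p.Prime] (_ : PData D p) (σ : Equiv.Perm (Fin 5)) (s0 : Fin 5 → ℤ),
  (∀ n : ℕ, ∃ s : Fin 5 → ℤ, (∀ j, (p : ℤ) ∣ s j - s0 j) ∧
    ∀ φ : K →+* ℚ_[p], ‖φ ((G D σ (tens s) : Kˣ) : K) - 1‖ ≤ (p : ℝ) ^ (-(n : ℤ))) →
  embp K p (G D σ (tens s0)) ∈ closure ((fun y => embp K p y ^ p) '' (LL D σ : Set Kˣ))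

/-- The argument with indices. -/
def S_INDEX : Prop := ∀ (A : Type) [CommGroup A] [TopologicalSpace A] [IsTopologicalGroup A]
  [T2Space A] (Λ : Subgroup A) (p : ℕ) [Fact p.Prime] (ℓ : ℕ),
  Nonempty (Λ ≃* Multiplicative (Fin ℓ → ℤ)) → IsCompact (Λ.topologicalClosure : Set A) →
  (∀ a ∈ Λ.topologicalClosure, a ^ p = 1 → a = 1) →
  (∃ x ∈ Λ, x ∈ closure ((fun y => y ^ p) '' (Λ : Set A)) ∧ ∀ y ∈ Λ, y ^ p ≠ x) →
  ¬ ∃ (H : Subgroup Λ.topologicalClosure) (H' : AddSubgroup (Fin ℓ → ℤ_[p])),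
    H.FiniteIndex ∧ H'.FiniteIndex ∧ Nonempty (H ≃* Multiplicative H')

/-- `L` is free and finitely generated. -/
def S_FREE : Prop := ∀ (K : Type) [Field K] [NumberField K] (D : FieldData K)
  (σ : Equiv.Perm (Fin 5)),
  Nonempty (LL D σ ≃* Multiplicative (Fin (rk K (LL D σ)) → ℤ)) ∧ (LL D σ).FG

/-- `L` lies in the compact subgroup. -/
def S_NORM : Prop := ∀ (K : Type) [Field K] [NumberField K] (D : FieldData K) (p : ℕ)
  [Fact p.Prime] (_ : PData D p) (σ : Equiv.Perm (Fin 5)), ∀ x ∈ LL D σ, ∀ φ : K →+* ℚ_[p],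
  ‖φ (x : K)‖ = 1

/-- Compactness, and no torsion of order `p`. -/
def S_COMPACT : Prop := ∀ (Φ : Type) [Fintype Φ] (p : ℕ) [Fact p.Prime]
  (Λ : Subgroup (Φ → ℚ_[p]ˣ)), p ≠ 2 → (∀ u ∈ Λ, ∀ φ, ‖(u φ : ℚ_[p])‖ = 1) →
  IsCompact (Λ.topologicalClosure : Set (Φ → ℚ_[p]ˣ)) ∧
    ∀ a ∈ Λ.topologicalClosure, a ^ p = 1 → a = 1

/-- The final statement. -/
def S_MAINP : Prop := ∀ (K : Type) [Field K] [NumberField K] (D : FieldData K) (p : ℕ)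
  [Fact p.Prime] (_ : PData D p), ¬ PadicExpected K p

end Pool.Agent.W527.PC
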