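import Pool.Agent.W527.CL.Defs

/-!
# Closures of finitely generated subgroups of `R_{K/ℚ}(𝔾_m)(ℚ)` in the `p`-adic points

`p` is a prime which is totally split in `K`: with `Φ = (K →+* ℚ_[p])` the set of embeddings one has
`T(ℚ_p) = (K ⊗ ℚ_p)ˣ = (ℚ_pˣ)^Φ`; the group of characters is `ℤ^Φ`; `T(ℚ) = Kˣ`.
-/

namespace Pool.Agent.W527.PC

open NumberField Pool.Agent.W527.CL

noncomputable section

section defs

variable (K : Type) [Field K] [NumberField K] (p : ℕ) [Fact p.Prime]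

/-- The inclusion of `T(ℚ) = Kˣ` in `T(ℚ_p)`, if `p` is totally split. -/
def embp : Kˣ →* ((K →+* ℚ_[p]) → ℚ_[p]ˣ) where
  toFun x φ := Units.map (φ : K →* ℚ_[p]) x
  map_one' := by ext φ; simp
  map_mul' x y := by ext φ; simp

/-- The points `B(ℚ_p)` of the algebraic subgroup `B` of `T` over `ℚ_p` which is the common kernel
of the characters in `N`.  Its dimension is the number of embeddings minus the rank of `N`. -/
def pointsp (N : AddSubgroup ((K →+* ℚ_[p]) → ℤ)) : Subgroup ((K →+* ℚ_[p]) → ℚ_[p]ˣ) where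
  carrier := {u | ∀ n ∈ N, ∏ φ, u φ ^ n φ = 1}
  one_mem' := fun n _ => by simp
  mul_mem' {u v} hu hv := fun n hn => by
    simp only [Pi.mul_apply, mul_zpow, Finset.prod_mul_distrib, hu n hn, hv n hn, mul_one]
  inv_mem' {u} hu := fun n hn => by
    simp only [Pi.inv_apply, inv_zpow, Finset.prod_inv_distrib, hu n hn, inv_one]

/-- The closure of a subgroup `L` of `T(ℚ)` in `T(ℚ_p)`. -/
def closp (L : Subgroup Kˣ) : Subgroup ((K →+* ℚ_[p]) → ℚ_[p]ˣ) :=
  (L.map (embp K p)).topologicalClosure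

/-- The rank of a subgroup of `Kˣ`. -/
def rk (M : Subgroup Kˣ) : ℕ := Module.finrank ℤ (Additive M)

/-- The `p`-adic part of the expected answer for `R_{K/ℚ}(𝔾_m)`, if `p` is totally split in `K`: for
every finitely generated subgroup `L` of `T(ℚ)` which lies in the (maximal) compact subgroup of
`T(ℚ_p)`: if `rank (L ∩ B(ℚ_p)) ≤ dim B` for all algebraic subgroups `B`, then the closure of `L`
(which is compact) is commensurable with `ℤ_p ^ ℓ`, where `ℓ` is the rank of `L`. -/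
def PadicExpected : Prop :=
  ∀ L : Subgroup Kˣ, L.FG → (∀ x ∈ L, ∀ φ : K →+* ℚ_[p], ‖φ (x : K)‖ = 1) →
  (∀ N : AddSubgroup ((K →+* ℚ_[p]) → ℤ),
    rk K (L ⊓ (pointsp K p N).comap (embp K p)) + Module.finrank ℤ N ≤ Nat.card (K →+* ℚ_[p])) →
  ∃ (H : Subgroup (closp K p L)) (H' : AddSubgroup (Fin (rk K L) → ℤ_[p])),
    H.FiniteIndex ∧ H'.FiniteIndex ∧ Nonempty (H ≃* Multiplicative H')

end defs

/-- The five integers. -/
def n5 : Fin 5 → ℤ := ![3, 5, 7, 9, 11]

section data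

variable {K : Type} [Field K] [NumberField K] (D : FieldData K)

theorem ne_zero (k : Fin 5) (n : ℤ) : D.b k + (n : K) ≠ 0 := by
  intro h
  have h1 : D.b k = ((-n : ℤ) : K) := by
    push_cast
    exact eq_neg_of_add_eq_zero_left h
  have h2 := D.rootK k
  rw [h1] at h2
  have h3 : ((-n) ^ 5 - 4 * (-n) + 2 : ℤ) = 0 := by exact_mod_cast h2
  rcases Int.even_or_odd' (-n) with ⟨c, hc | hc⟩
  · rw [hc] at h3
    have h4 : 4 * (8 * c ^ 5 - 2 * c) = -2 := by linear_combination h3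
    omega
  · rw [hc] at h3
    have h4 : 2 * (16 * c ^ 5 + 40 * c ^ 4 + 40 * c ^ 3 + 20 * c ^ 2 + 5 * c - 4 * c - 1) = -1 := by
      linear_combination h3
    omega

/-- The unit `b_k + n_j` of `K`. -/
def bu (k j : Fin 5) : Kˣ := Units.mk0 (D.b k + (n5 j : K)) (ne_zero D k (n5 j))

/-- The element `(b_i + n_j) / (b_4 + n_j)`, where the five integers are reordered by `σ`. -/
def g (σ : Equiv.Perm (Fin 5)) (i : Fin 4) (j : Fin 5) : Kˣ :=
  bu D i.castSucc (σ j) / bu D (Fin.last 4) (σ j)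

/-- The product of the `g i j ^ X i j`. -/
def G (σ : Equiv.Perm (Fin 5)) (X : Matrix (Fin 4) (Fin 5) ℤ) : Kˣ := ∏ i, ∏ j, g D σ i j ^ X i j

theorem G_zero (σ : Equiv.Perm (Fin 5)) : G D σ 0 = 1 := by simp [G]

theorem G_add (σ : Equiv.Perm (Fin 5)) (X Y : Matrix (Fin 4) (Fin 5) ℤ) :
    G D σ (X + Y) = G D σ X * G D σ Y := by
  simp [G, zpow_add, Finset.prod_mul_distrib]

theorem G_neg (σ : Equiv.Perm (Fin 5)) (X : Matrix (Fin 4) (Fin 5) ℤ) :
    G D σ (-X) = (G D σ X)⁻¹ := by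
  simp [G, zpow_neg, Finset.prod_inv_distrib]

end data

/-- The integral matrices whose left `4 × 4` block is symmetric. -/
def USym : AddSubgroup (Matrix (Fin 4) (Fin 5) ℤ) where
  carrier := {X | ∀ i j : Fin 4, X i j.castSucc = X j i.castSucc}
  zero_mem' := fun _ _ => rfl
  add_mem' := fun {X Y} hX hY i j => by simp only [Matrix.add_apply, hX i j, hY i j]
  neg_mem' := fun {X} hX i j => by simp only [Matrix.neg_apply, hX i j]

section data2

variable {K : Type} [Field K] [NumberField K] (D : FieldData K)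

/-- The subgroup `L` of `Kˣ`. -/
def LL (σ : Equiv.Perm (Fin 5)) : Subgroup Kˣ where
  carrier := {x | ∃ X ∈ USym, x = G D σ X}
  one_mem' := ⟨0, zero_mem _, (G_zero D σ).symm⟩
  mul_mem' := by
    rintro _ _ ⟨X, hX, rfl⟩ ⟨Y, hY, rfl⟩
    exact ⟨X + Y, add_mem hX hY, (G_add D σ X Y).symm⟩
  inv_mem' := by
    rintro _ ⟨X, hX, rfl⟩
    exact ⟨-X, neg_mem hX, (G_neg D σ X).symm⟩

end data2

/-- The matrix `s' ⊗ s`, where `s'` is the vector of the first four entries of `s`. -/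
def tens (s : Fin 5 → ℤ) : Matrix (Fin 4) (Fin 5) ℤ := fun i j => s i.castSucc * s j

theorem tens_mem (s : Fin 5 → ℤ) : tens s ∈ USym := fun i j => mul_comm _ _

/-- The `5 × 5` matrix with column sums zero given by a `4 × 5` matrix. -/
def hat (X : Matrix (Fin 4) (Fin 5) ℤ) : Matrix (Fin 5) (Fin 5) ℤ :=
  fun i j => Fin.lastCases (motive := fun _ => ℤ) (-∑ i', X i' j) (fun i' => X i' j) i

/-- The `p`-adic data: `p` is totally split in `K`, and the numbers `b_k + n_j` are units at `p`. -/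
structure PData {K : Type} [Field K] [NumberField K] (D : FieldData K) (p : ℕ) [Fact p.Prime] where
  r : Fin 5 → ℤ_[p]
  emb : ∀ φ : K →+* ℚ_[p], ∃ π : Equiv.Perm (Fin 5), ∀ k, φ (D.b k) = ((r (π k) : ℤ_[p]) : ℚ_[p])
  surj : ∀ π : Equiv.Perm (Fin 5), ∃ φ : K →+* ℚ_[p], ∀ k, φ (D.b k) = ((r (π k) : ℤ_[p]) : ℚ_[p])
  unit : ∀ k j, IsUnit (r k + ((n5 j : ℤ) : ℤ_[p]))
  card : Nat.card (K →+* ℚ_[p]) = Module.finrank ℚ K
  odd : p ≠ 2

end

end Pool.Agent.W527.PC
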